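import Pool.Agent.MP_7e71a7_ag.Mg.Main

/-! In the dimensions `(n, 2 n - 1)`, `n ≥ 3`, no unstable germ of finite codimension has a
contractible disentanglement. -/

namespace Pool.Agent.Results.MP_7e71a7_ag.NonContractible

open Pool.Agent.MP_7e71a7_ag

/-- Let `n ≥ 3`, let `f : (ℂ^n, 0) → (ℂ^(2n-1), 0)` be an unstable holomorphic germ of finite
`A_e`-codimension and `F` any unfolding of `f`. For small `ρ`, then small `ε`, then small `s`:
if `f_s = F (·, s)` is locally stable on the preimage of the closed `ε`-ball, its image is not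
contractible. -/
theorem result (n : ℕ) (hn : 3 ≤ n) (f : Cn n → Cn (2 * n - 1)) (_hf : AnalyticAt ℂ f 0)
    (hf0 : f 0 = 0) (hfin : IsAFinite f) (hun : ¬ IsStable f {0} 0)
    (d : ℕ) (F : Cn n × Cn d → Cn (2 * n - 1)) (hF : IsUnfolding f {0} F) :
    ∃ ρ₀ > 0, ∀ ρ, 0 < ρ → ρ < ρ₀ → ∃ ε₀ > 0, ∀ ε, 0 < ε → ε < ε₀ → ∃ δ > 0, ∀ s : Cn d, ‖s‖ < δ →
      IsLocallyStable (fun x => F (x, s)) (source (fun x => F (x, s)) ρ ε) →
        ¬ ContractibleSpace ((fun x => F (x, s)) '' source (fun x => F (x, s)) ρ ε) :=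
  main (by simp; omega) (by simpa using hn) hf0 hfin hun hF

end Pool.Agent.Results.MP_7e71a7_ag.NonContractible
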